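import Pool.Agent.Helper77.HY.St

/-!
# Project HY (MP_7a9ddc_co), module ASM
-/

set_option autoImplicit false

namespace Pool.Agent.Helper72.HY.ASM

open Pool.Agent.Helper35.PM Pool.Agent.Helper77.HY

open scoped Classical in
/-- ASM -/
theorem main (hPie : StPie) : StAsm := by
  intro V _ G I F ι κ hP hT hI hF hIF hFK hκ hG L A hL
  have hA : ∀ v, ∃ x, x ∈ L v ∩ A := by
    intro v
    apply Finset.card_pos.1
    rw [(hL v).1]
    exact one_pos
  choose a ha using hA
  obtain ⟨f, hf1, hf2⟩ := hF (fun v => L v \ A) (fun v _ => (hL v).2)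
  have hK := fun i => hPie V G I {v | v ∉ I ∧ v ∉ F ∧ κ v = i} hP hT (hG i) L A hL
  choose g hg1 hg2 hg3 using hK
  refine ⟨fun v => if v ∈ I then a v else if v ∈ F then f v else g (κ v) v, ?_, ?_⟩
  · intro v
    by_cases h1 : v ∈ I
    · simp only [h1, if_true]
      exact (Finset.mem_inter.1 (ha v)).1
    · by_cases h2 : v ∈ F
      · simp only [h1, h2, if_false, if_true]
        exact (Finset.mem_sdiff.1 (hf1 v h2)).1
      · simp only [h1, h2, if_false]
        exact hg1 (κ v) v ⟨h1, h2, rfl⟩
  · have key : ∀ u v, G.Adj u v → u ∈ I →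
        a u ≠ (if v ∈ I then a v else if v ∈ F then f v else g (κ v) v) := by
      intro u v huv hu
      have h1 : v ∉ I := fun hv => hI u hu v hv huv
      have hau := (Finset.mem_inter.1 (ha u)).2
      rw [if_neg h1]
      by_cases h2 : v ∈ F
      · rw [if_pos h2]
        intro e
        have := (Finset.mem_sdiff.1 (hf1 v h2)).2
        exact this (e ▸ hau)
      · rw [if_neg h2]
        intro e
        exact hg2 (κ v) v ⟨h1, h2, rfl⟩ ⟨u, hu, huv.symm⟩ (e ▸ hau)
    intro u v huv
    change (if u ∈ I then a u else if u ∈ F then f u else g (κ u) u) ≠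
      (if v ∈ I then a v else if v ∈ F then f v else g (κ v) v)
    by_cases hu : u ∈ I
    · rw [if_pos hu]
      exact key u v huv hu
    by_cases hv : v ∈ I
    · have h := key v u huv.symm hv
      rw [if_pos hv]
      exact h.symm
    rw [if_neg hu, if_neg hv]
    by_cases hu2 : u ∈ F
    · by_cases hv2 : v ∈ F
      · rw [if_pos hu2, if_pos hv2]
        exact hf2 u hu2 v hv2 huv
      · exact absurd huv (hFK u hu2 v hv hv2)
    · by_cases hv2 : v ∈ F
      · exact absurd huv.symm (hFK v hv2 u hu hu2)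
      · rw [if_neg hu2, if_neg hv2]
        have e := hκ u v hu hu2 hv hv2 huv
        rw [e]
        exact hg3 (κ v) u ⟨hu, hu2, e⟩ v ⟨hv, hv2, rfl⟩ huv

end Pool.Agent.Helper72.HY.ASM
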